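import Pool.Agent.Lib.MP_573991_co.Defs

namespace Pool.Agent.Lib.MP_573991_co

open SimpleGraph

set_option linter.unusedSimpArgs false

/-- In a triangle-free graph every closed walk with five steps is a shortest odd cycle, so under an
orientation with all shortest odd cycles alternating it has a unique through vertex. -/
theorem five_cycle {V : Type} {G : SimpleGraph V} {D : V → V → Prop}
    (tri : ∀ a b c, G.Adj a b → G.Adj b c → G.Adj c a → False)
    (hall : ∀ (v : V) (c : G.Walk v v), IsShortestOddCycle G c → IsAlternating D c)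
    {a b c d e : V} (hab : G.Adj a b) (hbc : G.Adj b c) (hcd : G.Adj c d) (hde : G.Adj d e)
    (hea : G.Adj e a) :
    (D a b → D b c → D c d → False) ∧ (D a b → D b c → D e d → D d c → False) ∧
      (D b a → D c b → D d e → D c d → False) := by
  have nac : a ≠ c := fun h => tri c d e hcd hde (h ▸ hea)
  have nbd : b ≠ d := fun h => tri d e a hde hea (h ▸ hab)
  have nce : c ≠ e := fun h => tri e a b hea hab (h ▸ hbc)
  have nda : d ≠ a := fun h => tri a b c hab hbc (h ▸ hcd)
  have neb : e ≠ b := fun h => tri b c d hbc hcd (h ▸ hde)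
  have nab := hab.ne
  have nbc := hbc.ne
  have ncd := hcd.ne
  have nde := hde.ne
  have nea := hea.ne
  let w : G.Walk a a := .cons hab (.cons hbc (.cons hcd (.cons hde (.cons hea .nil))))
  have hcyc : w.IsCycle := by
    rw [Walk.isCycle_def]
    refine ⟨?_, by simp [w], ?_⟩
    · rw [Walk.isTrail_def]
      simp [w, nab, nbc, ncd, nde, nea, nac, nbd, nce, nda, neb, nab.symm, nbc.symm, ncd.symm,
        nde.symm, nea.symm, nac.symm, nbd.symm, nce.symm, nda.symm, neb.symm]
    · simp [w, nab, nbc, ncd, nde, nea, nac, nbd, nce, nda, neb, nab.symm, nbc.symm, ncd.symm,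
        nde.symm, nea.symm, nac.symm, nbd.symm, nce.symm, nda.symm, neb.symm]
  have hlen : w.length = 5 := rfl
  have hshort : IsShortestOddCycle G w := by
    refine ⟨hcyc, by rw [hlen]; decide, ?_⟩
    intro x c' hc' hodd
    rw [hlen]
    have h3 := hc'.three_le_length
    have hne : c'.length ≠ 3 := by
      intro h
      match c', h with
      | .cons h1 (.cons h2 (.cons h3 .nil)), _ => exact tri _ _ _ h1 h2 h3
    obtain ⟨m, hm⟩ := hodd
    omega
  obtain ⟨x, -, hx⟩ := hall a w hshort
  have eab : s(a, b) ∈ w.edges := by simp [w]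
  have ebc : s(b, c) ∈ w.edges := by simp [w]
  have ecd : s(c, d) ∈ w.edges := by simp [w]
  have ede : s(d, e) ∈ w.edges := by simp [w]
  have eba : s(b, a) ∈ w.edges := by rw [Sym2.eq_swap]; exact eab
  have ecb : s(c, b) ∈ w.edges := by rw [Sym2.eq_swap]; exact ebc
  have edc : s(d, c) ∈ w.edges := by rw [Sym2.eq_swap]; exact ecd
  have eed : s(e, d) ∈ w.edges := by rw [Sym2.eq_swap]; exact ede
  refine ⟨fun h1 h2 h3 => nbc ?_, fun h1 h2 h3 h4 => nbd ?_, fun h1 h2 h3 h4 => nbd ?_⟩
  · exact (hx b ⟨⟨a, eab, h1⟩, ⟨c, ebc, h2⟩⟩).trans (hx c ⟨⟨b, ebc, h2⟩, ⟨d, ecd, h3⟩⟩).symm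
  · exact (hx b ⟨⟨a, eab, h1⟩, ⟨c, ebc, h2⟩⟩).trans (hx d ⟨⟨e, eed, h3⟩, ⟨c, edc, h4⟩⟩).symm
  · exact (hx b ⟨⟨c, ecb, h2⟩, ⟨a, eba, h1⟩⟩).trans (hx d ⟨⟨c, ecd, h4⟩, ⟨e, ede, h3⟩⟩).symm

/-! A small checker for refutations by unit propagation. Arcs are numbers, `rev` reverses an arc,
`A i` says that arc `i` is present, a nogood is a list of arcs not all present. -/

def rev (i : Nat) : Nat := (i % 256) * 256 + i / 256

def propagate (S : Nat) : List (List Nat) → Bool
  | [] => false
  | H :: rest =>
    match H.filter (fun i => !S.testBit i) with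
    | [] => true
    | [i] => propagate (S ||| 2 ^ rev i) rest
    | _ => false

def maskOf : List Nat → Nat
  | [] => 0
  | i :: l => maskOf l ||| 2 ^ i

theorem maskOf_spec {A : Nat → Prop} : ∀ (l : List Nat), (∀ i ∈ l, A i) →
    ∀ j, (maskOf l).testBit j = true → A j
  | [], _, j, h => by simp [maskOf] at h
  | i :: l, hl, j, h => by
    simp only [maskOf, Nat.testBit_or, Bool.or_eq_true, Nat.testBit_two_pow,
      decide_eq_true_eq] at h
    rcases h with h | h
    · exact maskOf_spec l (fun x hx => hl x (List.mem_cons_of_mem _ hx)) j h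
    · exact h ▸ hl i List.mem_cons_self

theorem propagate_sound {A : Nat → Prop} (hrev : ∀ i, ¬ A i → A (rev i)) :
    ∀ (L : List (List Nat)) (S : Nat), (∀ H ∈ L, ¬ ∀ i ∈ H, A i) →
      (∀ j, S.testBit j = true → A j) → propagate S L = true → False
  | [], _, _, _, h => by simp [propagate] at h
  | H :: rest, S, hL, hS, h => by
    have hH := hL H List.mem_cons_self
    have key : ∀ i ∈ H, i ∉ H.filter (fun i => !S.testBit i) → A i := by
      intro i hi hn
      apply hS
      by_contra hc
      exact hn (List.mem_filter.mpr ⟨hi, by simpa using hc⟩)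
    unfold propagate at h
    split at h
    · rename_i heq
      exact hH (fun i hi => key i hi (by rw [heq]; simp))
    · rename_i i heq
      have hi : ¬ A i := by
        intro hA
        apply hH
        intro x hx
        by_cases hxi : x = i
        · exact hxi ▸ hA
        · exact key x hx (by rw [heq]; simpa using hxi)
      refine propagate_sound hrev rest _ (fun H' h' => hL H' (List.mem_cons_of_mem _ h')) ?_ h
      intro j hj
      simp only [Nat.testBit_or, Bool.or_eq_true, Nat.testBit_two_pow, decide_eq_true_eq] at hj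
      rcases hj with hj | hj
      · exact hS j hj
      · exact hj ▸ hrev i hi
    · exact absurd h (by simp)

/-- bit `m` is set exactly for the numbers `m < 256` with three binary digits equal to one -/
def valid : Nat := 26960359788324348720949767030734241706367231428990564075626486589568

def adjB (u v : Nat) : Bool :=
  decide (u < 256) && decide (v < 256) && valid.testBit u && valid.testBit v && (u &&& v == 0)

def cycB (a b c d e : Nat) : Bool := adjB a b && adjB b c && adjB c d && adjB d e && adjB e a

/-- decoding of a hint into a nogood; a bad hint gives `none` -/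
def decode (db : List (List Nat)) : List Nat → Option (List Nat)
  | [j] => db[j]?
  | [t, a, b, c, d, e] =>
    if cycB a b c d e then
      match t with
      | 0 => some [a * 256 + b, b * 256 + c, c * 256 + d]
      | 1 => some [a * 256 + b, b * 256 + c, e * 256 + d, d * 256 + c]
      | _ => some [b * 256 + a, c * 256 + b, d * 256 + e, c * 256 + d]
    else none
  | _ => none

def decodeAll (db : List (List Nat)) : List (List Nat) → Option (List (List Nat))
  | [] => some []
  | h :: hs =>
    match decode db h, decodeAll db hs with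
    | some x, some xs => some (x :: xs)
    | _, _ => none

/-- `db` is the list of nogoods derived so far, newest first -/
def run (db : List (List Nat)) : List (List Nat × List (List Nat)) → Bool
  | [] => false
  | (N, hs) :: rest =>
    match decodeAll db hs with
    | some L =>
      propagate (maskOf N) L &&
        (match N with
          | [] => true
          | _ => run (N :: db) rest)
    | none => false

theorem run_sound {A : Nat → Prop} (hrev : ∀ i, ¬ A i → A (rev i))
    (hc : ∀ a b c d e, cycB a b c d e = true →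
      (A (a * 256 + b) → A (b * 256 + c) → A (c * 256 + d) → False) ∧
      (A (a * 256 + b) → A (b * 256 + c) → A (e * 256 + d) → A (d * 256 + c) → False) ∧
      (A (b * 256 + a) → A (c * 256 + b) → A (d * 256 + e) → A (c * 256 + d) → False)) :
    ∀ (P : List (List Nat × List (List Nat))) (db : List (List Nat)),
      (∀ H ∈ db, ¬ ∀ i ∈ H, A i) → run db P = true → False := by
  have hdec : ∀ db : List (List Nat), (∀ H ∈ db, ¬ ∀ i ∈ H, A i) → ∀ h x,
      decode db h = some x → ¬ ∀ i ∈ x, A i := by
    intro db hdb h x hx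
    unfold decode at hx
    split at hx
    · exact hdb x (List.mem_of_getElem? hx)
    · rename_i t a b c d e
      split at hx
      · rename_i hcyc
        obtain ⟨h0, h1, h2⟩ := hc a b c d e hcyc
        intro hA
        split at hx
        · cases hx
          exact h0 (hA _ (by simp)) (hA _ (by simp)) (hA _ (by simp))
        · cases hx
          exact h1 (hA _ (by simp)) (hA _ (by simp)) (hA _ (by simp)) (hA _ (by simp))
        · cases hx
          exact h2 (hA _ (by simp)) (hA _ (by simp)) (hA _ (by simp)) (hA _ (by simp))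
      · cases hx
    · cases hx
  have hall : ∀ db : List (List Nat), (∀ H ∈ db, ¬ ∀ i ∈ H, A i) → ∀ hs L,
      decodeAll db hs = some L → ∀ H ∈ L, ¬ ∀ i ∈ H, A i := by
    intro db hdb hs
    induction hs with
    | nil =>
      intro L hL H hH
      simp only [decodeAll, Option.some.injEq] at hL
      subst hL
      cases hH
    | cons h hs ih =>
      intro L hL H hH
      unfold decodeAll at hL
      split at hL
      · rename_i x xs hx hxs
        cases hL
        rcases List.mem_cons.mp hH with rfl | hH
        · exact hdec db hdb h _ hx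
        · exact ih xs hxs H hH
      · cases hL
  intro P
  induction P with
  | nil => intro db _ h; simp [run] at h
  | cons p rest ih =>
    intro db hdb h
    obtain ⟨N, hs⟩ := p
    unfold run at h
    split at h
    · rename_i L hL
      rw [Bool.and_eq_true] at h
      have hN : ¬ ∀ i ∈ N, A i := fun hA =>
        propagate_sound hrev L _ (hall db hdb hs L hL) (maskOf_spec N hA) h.1
      have h2 := h.2
      split at h2
      · exact hN (by simp)
      · refine ih (N :: db) ?_ h2
        intro H hH
        rcases List.mem_cons.mp hH with rfl | hH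
        · exact hN
        · exact hdb H hH
    · cases h

/-! The link with `KG(8,3)`. -/

def toS (m : Nat) : Finset (Fin 8) := Finset.univ.filter (fun i => m.testBit i.val = true)

def vtx (m : Nat) : {s : Finset (Fin 8) // s.card = 3} :=
  if h : (toS m).card = 3 then ⟨toS m, h⟩ else ⟨{0, 1, 2}, by decide⟩

theorem valid_card : ∀ m : Fin 256, valid.testBit m.val = true → (toS m.val).card = 3 := by
  decide +kernel

theorem kneser_adj {a b : {s : Finset (Fin 8) // s.card = 3}} :
    (kneser 8 3).Adj a b ↔ Disjoint a.1 b.1 := by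
  unfold kneser
  rw [SimpleGraph.fromRel_adj]
  constructor
  · rintro ⟨-, h | h⟩
    · exact h
    · exact h.symm
  · intro h
    refine ⟨?_, Or.inl h⟩
    rintro rfl
    have h0 := a.2
    rw [disjoint_self, Finset.bot_eq_empty] at h
    rw [h] at h0
    simp at h0

theorem adjB_adj {u v : Nat} (h : adjB u v = true) : (kneser 8 3).Adj (vtx u) (vtx v) := by
  simp only [adjB, Bool.and_eq_true, decide_eq_true_eq, beq_iff_eq] at h
  obtain ⟨⟨⟨⟨hu, hv⟩, vu⟩, vv⟩, h0⟩ := h
  have cu := valid_card ⟨u, hu⟩ vu
  have cv := valid_card ⟨v, hv⟩ vv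
  rw [kneser_adj]
  simp only [vtx, cu, cv, dite_true]
  rw [Finset.disjoint_left]
  intro i hi hj
  simp only [toS, Finset.mem_filter, Finset.mem_univ, true_and] at hi hj
  have : (u &&& v).testBit i.val = true := by rw [Nat.testBit_and, hi, hj]; rfl
  rw [h0] at this
  simp at this

theorem adjB_symm {u v : Nat} (h : adjB u v = true) : adjB v u = true := by
  simp only [adjB, Bool.and_eq_true, decide_eq_true_eq, beq_iff_eq] at h ⊢
  obtain ⟨⟨⟨⟨hu, hv⟩, vu⟩, vv⟩, h0⟩ := h
  exact ⟨⟨⟨⟨hv, hu⟩, vv⟩, vu⟩, by rw [Nat.and_comm]; exact h0⟩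

theorem adjB_lt {u v : Nat} (h : adjB u v = true) : u < 256 ∧ v < 256 := by
  simp only [adjB, Bool.and_eq_true, decide_eq_true_eq, beq_iff_eq] at h
  exact ⟨h.1.1.1.1, h.1.1.1.2⟩

theorem kneser_tri (a b c : {s : Finset (Fin 8) // s.card = 3}) (hab : (kneser 8 3).Adj a b)
    (hbc : (kneser 8 3).Adj b c) (hca : (kneser 8 3).Adj c a) : False := by
  rw [kneser_adj] at hab hbc hca
  have h1 : (a.1 ∪ b.1 ∪ c.1).card = 9 := by
    rw [Finset.card_union_of_disjoint (Finset.disjoint_union_left.mpr ⟨hca.symm, hbc⟩),
      Finset.card_union_of_disjoint hab, a.2, b.2, c.2]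
  have h2 := Finset.card_le_univ (a.1 ∪ b.1 ∪ c.1)
  rw [h1] at h2
  simp at h2

theorem no_orientation_of_run (P : List (List Nat × List (List Nat))) (hP : run [] P = true)
    (D : {s : Finset (Fin 8) // s.card = 3} → {s : Finset (Fin 8) // s.card = 3} → Prop)
    (hD : IsOrientation (kneser 8 3) D)
    (hall : ∀ v (c : (kneser 8 3).Walk v v), IsShortestOddCycle (kneser 8 3) c →
      IsAlternating D c) : False := by
  let A : Nat → Prop := fun i =>
    adjB (i / 256) (i % 256) = true → D (vtx (i / 256)) (vtx (i % 256))
  have hA : ∀ u v, adjB u v = true → (A (u * 256 + v) ↔ D (vtx u) (vtx v)) := by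
    intro u v h
    have hv := (adjB_lt h).2
    have e1 : (u * 256 + v) / 256 = u := by omega
    have e2 : (u * 256 + v) % 256 = v := by omega
    simp only [A, e1, e2, h, true_implies]
  refine run_sound (A := A) ?_ ?_ P [] (by simp) hP
  · intro i hi
    have hadj : adjB (i / 256) (i % 256) = true := by
      by_contra hn
      exact hi (fun h => absurd h hn)
    have hnD : ¬ D (vtx (i / 256)) (vtx (i % 256)) := fun h => hi (fun _ => h)
    unfold rev
    rw [hA _ _ (adjB_symm hadj)]
    exact (hD.2 _ _ (adjB_adj (adjB_symm hadj))).mpr hnD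
  · intro a b c d e h
    simp only [cycB, Bool.and_eq_true] at h
    obtain ⟨⟨⟨⟨hab, hbc⟩, hcd⟩, hde⟩, hea⟩ := h
    rw [hA _ _ hab, hA _ _ hbc, hA _ _ hcd, hA _ _ hde, hA _ _ (adjB_symm hab),
      hA _ _ (adjB_symm hbc), hA _ _ (adjB_symm hcd), hA _ _ (adjB_symm hde)]
    exact five_cycle kneser_tri hall (adjB_adj hab) (adjB_adj hbc) (adjB_adj hcd) (adjB_adj hde)
      (adjB_adj hea)

end Pool.Agent.Lib.MP_573991_co
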