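import Mathlib

namespace Pool.Agent.Lib.MP_573991_co

/-- The Kneser graph `KG(n,k)`: vertices are the `k`-element subsets of an `n`-element set,
two (distinct) vertices are adjacent exactly when they are disjoint. -/
def kneser (n k : ℕ) : SimpleGraph {s : Finset (Fin n) // s.card = k} :=
  SimpleGraph.fromRel (fun a b => Disjoint a.1 b.1)

/-- `D u v` means that the edge `uv` is directed from `u` to `v`. `D` is an orientation of `G`
when arcs are edges of `G` and every edge gets exactly one of its two directions. -/
def IsOrientation {V : Type} (G : SimpleGraph V) (D : V → V → Prop) : Prop :=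
  (∀ u v, D u v → G.Adj u v) ∧ ∀ u v, G.Adj u v → (D u v ↔ ¬ D v u)

/-- A shortest odd cycle: a cycle of odd length, no longer than any other cycle of odd length
(so its length is the odd girth). -/
def IsShortestOddCycle {V : Type} (G : SimpleGraph V) {v : V} (c : G.Walk v v) : Prop :=
  c.IsCycle ∧ Odd c.length ∧
    ∀ (w : V) (c' : G.Walk w w), c'.IsCycle → Odd c'.length → c.length ≤ c'.length

/-- The cycle `c` is alternating under `D`: exactly one vertex has both positive in-degree and
positive out-degree, counted among the edges of `c`. -/
def IsAlternating {V : Type} {G : SimpleGraph V} (D : V → V → Prop) {v : V}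
    (c : G.Walk v v) : Prop :=
  ∃! x : V, (∃ y, s(y, x) ∈ c.edges ∧ D y x) ∧ (∃ z, s(x, z) ∈ c.edges ∧ D x z)

end Pool.Agent.Lib.MP_573991_co
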